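import Pool.Agent.P.MP_14681b_lc.K.Count

set_option autoImplicit false

open Pool.Agent.P.MP_14681b_lc.K

namespace Pool.Agent.Results.MP_14681b_lc.Countable

/-- Countably many 2-random sequences have one common infinite set of lengths along which each of
them is incompressible, with a constant that depends only on the sequence and on its index. -/
theorem result (U : List Bool →. List Bool) (hU : Partrec U) :
    ∃ D : (ℕ → Bool) → ℕ, ∀ X : ℕ → ℕ → Bool, (∀ i, TwoRandom (X i)) →
      ∃ N : Set ℕ, N.Infinite ∧ ∀ i, {n ∈ N | ¬Inc U (D (X i) + 3 * i) (X i) n}.Finite :=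
  countable hU

end Pool.Agent.Results.MP_14681b_lc.Countable
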