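import Pool.Agent.P.MP_14681b_lc.K.Lower

set_option autoImplicit false

open Filter Pool.Agent.P.MP_14681b_lc.K Pool.Agent.P.MP_9014a2_lc

namespace Pool.Agent.Results.MP_14681b_lc.Sharp

/-- The exact loss for common incompressible lengths of finitely many sequences: for families of at
most `2 ^ j` sequences the loss `j + a j + O(1)` is enough iff the series of `2 ^ (- a j)`
converges. -/
theorem result (U : List Bool →. List Bool) (hU : Optimal U) (a : ℕ → ℕ) (ha : Computable a) :
    (∃ c : ℕ, ∀ (j d : ℕ) (F : Finset (ℕ → Bool)), F.card ≤ 2 ^ j →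
      (∀ X ∈ F, ∃ᶠ n in atTop, Inc U d X n) →
        ∃ᶠ n in atTop, ∀ X ∈ F, Inc U (d + j + a j + c) X n) ↔
      Summable fun j => (1 / 2 : ℝ) ^ a j := by
  refine ⟨fun ⟨c, hc⟩ => by_contra fun h => ?_, upper hU ha⟩
  obtain ⟨j, d, F, h1, h2, h3⟩ := lower hU (CI.of_comp ha) h c
  obtain ⟨n, h4, X, h5, h6⟩ := ((hc j d F h1 h2).and_eventually h3).exists
  exact h6 (h4 X h5)

end Pool.Agent.Results.MP_14681b_lc.Sharp
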